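import Pool.Agent.Y762.HD.Main

set_option autoImplicit false

/-!
# Haight's question: closed sets of density one, and every point outside `F(E)`

For `E ⊆ (0,∞)` put `F(E) = ⋃_{r ≥ 1} r E`.  Haight asked whether for every measurable `E` of
positive measure, for almost every `x > 0`, all sufficiently large multiples `n x` lie in `F(E)`.
The answer is no even for closed sets `E ⊆ [a,∞)` of natural density one whose complement in
`[a,X]` has measure at most `ε X` for all `X`, and for EVERY `x > 0` with `x ∉ F(E)` (so for every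
`x < a`) there are infinitely many primes `n` with `n x ∉ F(E)`.  As `x ∈ F(E)` implies
`n x ∈ F(E)` for all `n`, the set `F(E)` itself is the set of all `x` all of whose large multiples
are in `F(E)`.

Proof.  At each stage take a cluster of `K` primes `p_0 < ... < p_(K-1) < ρ p_0` and, by Kronecker's
theorem, a large `t` with `t log p` near an integer for all other primes `p < N` and `t log p_k`
near `k / K`.  Remove the `z < B` with `t log z` within about `1 / K` of an integer; they have
relative measure `O(1 / K)` in `[0, X]` at all scales `X`.  For `x > 0` choose `k` such that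
`t log (p_k x)` is near an integer.  If `p_k x = r z` and `r` is not divisible by a prime of the
cluster, then `z` has been removed.  If `r = p_j s` then `z = (p_k / p_j) (x / s)` is near `x / s`,
which is outside the closed set `E`.
-/

namespace Pool.Agent.Results.MP_bfec62_an.DensityOne

open MeasureTheory Filter Topology

/-- `F(E) = ⋃_{r ≥ 1} r E`, the union of the dilates of `E` by all positive integers. -/
def F (E : Set ℝ) : Set ℝ := ⋃ r : ℕ, ⋃ _ : 1 ≤ r, (fun x : ℝ => (r : ℝ) * x) '' E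

theorem mem_F (E : Set ℝ) (y : ℝ) : y ∈ F E ↔ ∃ r : ℕ, 0 < r ∧ ∃ z ∈ E, y = r * z := by
  simp only [F, Set.mem_iUnion, Set.mem_image, exists_prop]
  constructor
  · rintro ⟨r, hr, z, hz, h⟩
    exact ⟨r, hr, z, hz, h.symm⟩
  · rintro ⟨r, hr, z, hz, h⟩
    exact ⟨r, hr, z, hz, h.symm⟩

/-- For all `a, ε > 0` there is a closed set `E ⊆ [a,∞)` such that
(1) `[a,X] \ E` has Lebesgue measure at most `ε X` for every `X > 0`;
(2) `E` has natural density one: `|E ∩ [a,X]| / X → 1`;
(3) for every `x > 0` with `x ∉ F(E)` there are infinitely many primes `n` with `n x ∉ F(E)`;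
(4) this applies to every `x` with `0 < x < a`;
(5) if `x ∈ F(E)` then `n x ∈ F(E)` for every `n ≥ 1`. -/
theorem result : ∀ a ε : ℝ, 0 < a → 0 < ε → ∃ E : Set ℝ, IsClosed E ∧ E ⊆ Set.Ici a ∧
    (∀ X : ℝ, 0 < X → volume (Set.Icc a X \ E) ≤ ENNReal.ofReal (ε * X)) ∧
    Tendsto (fun X : ℝ => volume.real (Set.Icc a X ∩ E) / X) atTop (𝓝 1) ∧
    (∀ x : ℝ, 0 < x → x ∉ F E → {n : ℕ | n.Prime ∧ (n : ℝ) * x ∉ F E}.Infinite) ∧
    (∀ x ∈ Set.Ioo 0 a, {n : ℕ | n.Prime ∧ (n : ℝ) * x ∉ F E}.Infinite) ∧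
    (∀ x ∈ F E, ∀ n : ℕ, 1 ≤ n → (n : ℝ) * x ∈ F E) := by
  intro a ε ha hε
  obtain ⟨E, h1, h2, h3, h4, h5⟩ := Pool.Agent.Y762.HD.main a ε ha hε
  have h6 : ∀ x : ℝ, 0 < x → x ∉ F E → {n : ℕ | n.Prime ∧ (n : ℝ) * x ∉ F E}.Infinite := by
    intro x hx hxF
    have := h5 x hx (fun s hs hmem => hxF ((mem_F E x).2 ⟨s, hs, x / s, hmem, by
      have : (s : ℝ) ≠ 0 := by exact_mod_cast hs.ne'
      field_simp⟩))
    simpa only [mem_F] using this
  refine ⟨E, h1, h2, h3, h4, h6, fun x hx => h6 x hx.1 fun hxF => ?_, ?_⟩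
  · obtain ⟨r, hr, z, hz, hxz⟩ := (mem_F E x).1 hxF
    have hza : a ≤ z := h2 hz
    have hr1 : (1 : ℝ) ≤ r := by exact_mod_cast hr
    have hzpos : 0 < z := lt_of_lt_of_le ha hza
    have := hx.2
    nlinarith
  · intro x hx n hn
    obtain ⟨r, hr, z, hz, hxz⟩ := (mem_F E x).1 hx
    refine (mem_F E _).2 ⟨n * r, by positivity, z, hz, ?_⟩
    rw [hxz]; push_cast; ring

end Pool.Agent.Results.MP_bfec62_an.DensityOne
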